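import Pool.Agent.W662.CB.Stmts

set_option autoImplicit false

open MeasureTheory Filter Topology Complex
open scoped InnerProductSpace ENNReal
open Pool.Agent.W662.CB

namespace Pool.Agent.W303.CB


lemma tendsto_inv_punct : Tendsto (fun n : ℕ => (((1 / ((n : ℝ) + 1) : ℝ)) : ℂ)) atTop (𝓝[≠] (0 : ℂ)) := by
  rw [tendsto_nhdsWithin_iff]
  constructor
  · have h := (continuous_ofReal.tendsto (0 : ℝ)).comp
      (tendsto_one_div_add_atTop_nhds_zero_nat (𝕜 := ℝ))
    rw [ofReal_zero] at h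
    exact h
  · refine Filter.Eventually.of_forall (fun n => ?_)
    have : (1 / ((n : ℝ) + 1) : ℝ) ≠ 0 := by positivity
    simpa using (ofReal_ne_zero.mpr this)

lemma entire_eq {H : Type} [NormedAddCommGroup H] [NormedSpace ℂ H] [CompleteSpace H]
    (f g : ℂ → H) (hf : Differentiable ℂ f) (hg : Differentiable ℂ g)
    (h : ∀ s : ℝ, f s = g s) : f = g := by
  refine AnalyticOnNhd.eq_of_frequently_eq (𝕜 := ℂ) (z₀ := 0)
    (fun z _ => hf.analyticAt z) (fun z _ => hg.analyticAt z) ?_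
  exact tendsto_inv_punct.frequently (Filter.Frequently.of_forall (fun n => h _))

theorem a2a : S_A2a := by
  intro H _ _ _ M ξ U hU F hF t z
  ext v
  have h1 : Differentiable ℂ (fun z : ℂ => F (t + z) v) :=
    (hF.diff v).comp ((differentiable_const _).add differentiable_id)
  have h2 : Differentiable ℂ (fun z : ℂ => sgm U t (F z) v) :=
    (U t).differentiable.comp (hF.diff (star (U t) v))
  have h3 := entire_eq _ _ h1 h2 (by
    intro s
    have e1 : (t : ℂ) + (s : ℂ) = ((t + s : ℝ) : ℂ) := by push_cast; rfl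
    have e2 : F ((t + s : ℝ) : ℂ) = sgm U t (F s) := by
      rw [hF.ext (t + s), hF.ext s]
      unfold sgm
      rw [hU.add, star_mul]
      simp only [mul_assoc]
    change F ((t : ℂ) + (s : ℂ)) v = sgm U t (F s) v
    rw [e1, e2])
  exact congrFun h3 z

theorem a2 (h1 : S_A1) (h2a : S_A2a) : S_A2 := by
  intro H _ _ _ M ξ U hU F hF z b hb
  obtain ⟨G, hc, hd, ⟨C, hC⟩, hG⟩ := hU.kms (F (z - I)) b (hF.mem _) hb
  have key : ∀ t : ℝ, sgm U t (F (z - I)) = F (t + (z - I)) := fun t => (h2a H M ξ U hU F hF t _).symm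
  set K : ℂ → ℂ := fun w => vst ξ (F (z - I + w) * b) with hK
  have hKd : Differentiable ℂ K := by
    have e1 : Differentiable ℂ (fun w : ℂ => F (z - I + w) (b ξ)) :=
      (hF.diff (b ξ)).comp ((differentiable_const _).add differentiable_id)
    exact (innerSL ℂ ξ).differentiable.comp e1
  obtain ⟨D, hD⟩ := hF.bdd (|z.im| + 2)
  have hKb : ∀ w : ℂ, 0 ≤ w.im → w.im ≤ 1 → ‖K w‖ ≤ ‖ξ‖ * (D * ‖b ξ‖) := by
    intro w hw0 hw1
    have e1 : |(z - I + w).im| ≤ |z.im| + 2 := by
      have : (z - I + w).im = z.im - 1 + w.im := by simp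
      rw [this, abs_le]
      constructor
      · linarith [neg_abs_le z.im]
      · linarith [le_abs_self z.im]
    have e2 := hD _ e1
    calc ‖K w‖ ≤ ‖ξ‖ * ‖(F (z - I + w) * b) ξ‖ := norm_inner_le_norm _ _
      _ ≤ ‖ξ‖ * (D * ‖b ξ‖) := by
        gcongr
        calc ‖(F (z - I + w) * b) ξ‖ = ‖F (z - I + w) (b ξ)‖ := rfl
          _ ≤ ‖F (z - I + w)‖ * ‖b ξ‖ := ContinuousLinearMap.le_opNorm _ _
          _ ≤ D * ‖b ξ‖ := by gcongr
  have h := h1 (fun w => G w - K w) (hc.sub hKd.continuous.continuousOn)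
    (hd.sub hKd.differentiableOn) ⟨C + ‖ξ‖ * (D * ‖b ξ‖), fun w hw0 hw1 =>
      (norm_sub_le _ _).trans (add_le_add (hC w hw0 hw1) (hKb w hw0 hw1))⟩ (by
      intro t
      rw [(hG t).1, key, hK]
      simp only
      rw [show z - I + (t : ℂ) = t + (z - I) by ring, sub_self]) 0
  have e1 : G ((0 : ℝ) + I) - K ((0 : ℝ) + I) = 0 := h
  rw [(hG 0).2, key, sub_eq_zero] at e1
  have e2 : K (((0 : ℝ) : ℂ) + I) = vst ξ (F z * b) := by
    rw [hK]
    simp only [ofReal_zero, zero_add]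
    rw [sub_add_cancel]
  rw [e2, ofReal_zero, zero_add] at e1
  exact e1.symm

end Pool.Agent.W303.CB
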