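import Pool.Agent.W525.CB.Stm

set_option autoImplicit false

namespace Pool.Agent.W303.CB.REL

open Pool.Agent.W525.CB

variable {n : ℕ} {L : Type} [Field L] (x y : Fin (n + 3) → L)

lemma uu_self (i : Fin (n + 3)) : uu x y i i = 0 := by unfold uu; ring

lemma uu_swap (i j : Fin (n + 3)) : uu x y i j = - uu x y j i := by unfold uu; ring

lemma rel1 (hD : Dat x y) (σ : Equiv.Perm (Fin (n + 3))) (i : Fin (n + 3)) :
    ww x y σ i = uu x y (σ 1) (σ i) / uu x y (σ 1) (σ 0) := by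
  have h01 : σ 0 ≠ σ 1 := by
    intro h
    have := σ.injective h
    exact absurd this (by simp [Fin.ext_iff])
  have hu : uu x y (σ 0) (σ 1) ≠ 0 := hD.nu _ _ h01
  have hx : x (σ 0) ≠ 0 := hD.nx _
  rw [uu_swap x y (σ 1) (σ 0)]
  have key : x (σ i) ^ 2 * uu x y (σ 0) (σ 1) - x (σ 1) ^ 2 * uu x y (σ 0) (σ i) =
      - x (σ 0) ^ 2 * uu x y (σ 1) (σ i) := by
    unfold uu; ring
  unfold ww ss tt
  rw [div_neg, div_pow, div_pow]
  field_simp
  linear_combination key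

lemma sum0 (hD : Dat x y) (σ : Equiv.Perm (Fin (n + 3))) : ∑ i, ss x σ i ^ (2 * n + 5) = 0 := by
  unfold ss
  simp only [div_pow]
  rw [← Finset.sum_div, Equiv.sum_comp σ (fun i => x i ^ (2 * n + 5)), hD.fermat, zero_div]

lemma ss0 (hD : Dat x y) (σ : Equiv.Perm (Fin (n + 3))) : ss x σ 0 = 1 := div_self (hD.nx _)

lemma rel3 [Fact (n + 2).Prime] [CharP L (n + 2)] (hD : Dat x y)
    (σ : Equiv.Perm (Fin (n + 3))) :
    ss x σ 1 + ∑ i : Fin (n + 1), ss x σ i.succ.succ * tt x y σ i.succ.succ ^ (n + 2) = 0 := by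
  have h01 : σ 0 ≠ σ 1 := by
    intro h
    have := σ.injective h
    exact absurd this (by simp [Fin.ext_iff])
  have hu : uu x y (σ 0) (σ 1) ≠ 0 := hD.nu _ _ h01
  have h1 : ∑ i, x i * uu x y (σ 0) i ^ (n + 2) = 0 := by
    have e : ∀ i, x i * uu x y (σ 0) i ^ (n + 2) =
        x (σ 0) ^ (2 * (n + 2)) * (x i * y i ^ (n + 2)) -
          y (σ 0) ^ (n + 2) * x i ^ (2 * n + 5) := by
      intro i
      unfold uu
      rw [sub_pow_char]
      ring
    simp only [e]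
    rw [Finset.sum_sub_distrib, ← Finset.mul_sum, ← Finset.mul_sum, hD.tang, hD.fermat]
    ring
  have h2 : ∑ i, ss x σ i * tt x y σ i ^ (n + 2) = 0 := by
    have e : ∀ i, ss x σ i * tt x y σ i ^ (n + 2) =
        (x (σ i) * uu x y (σ 0) (σ i) ^ (n + 2)) / (x (σ 0) * uu x y (σ 0) (σ 1) ^ (n + 2)) := by
      intro i
      unfold ss tt
      rw [div_pow, div_mul_div_comm]
    simp only [e]
    rw [← Finset.sum_div, Equiv.sum_comp σ (fun i => x i * uu x y (σ 0) i ^ (n + 2)), h1, zero_div]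
  rw [Fin.sum_univ_succ, Fin.sum_univ_succ] at h2
  have t0 : tt x y σ 0 = 0 := by unfold tt; rw [uu_self, zero_div]
  have t1 : tt x y σ (Fin.succ 0) = 1 := div_self hu
  rw [t0, t1, zero_pow (by omega), one_pow, mul_zero, zero_add, mul_one] at h2
  exact h2

lemma rel4 [Fact (n + 2).Prime] [CharP L (n + 2)] (hD : Dat x y)
    (σ : Equiv.Perm (Fin (n + 3))) :
    ∑ i : Fin (n + 1), ss x σ i.succ.succ * ww x y σ i.succ.succ ^ (n + 2) = -1 := by
  have h3 := rel3 x y hD σ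
  have h2 := sum0 x y hD σ
  rw [Fin.sum_univ_succ, Fin.sum_univ_succ, ss0 x y hD, one_pow] at h2
  have e : ∀ i, ss x σ i * ww x y σ i ^ (n + 2) =
      ss x σ i ^ (2 * n + 5) - ss x σ 1 ^ (2 * (n + 2)) * (ss x σ i * tt x y σ i ^ (n + 2)) := by
    intro i
    unfold ww
    rw [sub_pow_char]
    ring
  simp only [e]
  rw [Finset.sum_sub_distrib, ← Finset.mul_sum]
  have h4 : ss x σ (Fin.succ 0) = ss x σ 1 := rfl
  rw [h4] at h2
  linear_combination h2 - ss x σ 1 ^ (2 * (n + 2)) * h3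

theorem main : S_REL := by
  intro n L _ _ _ x y _ hD σ
  exact ⟨rel1 x y hD σ, sum0 x y hD σ, rel3 x y hD σ, rel4 x y hD σ⟩

end Pool.Agent.W303.CB.REL
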